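import Pool.Agent.ZP3.Stmts
import Pool.Agent.Helper49_ZPT.RU

/-!
Squad ZP3 (MP_6e1a06_nt), row URR: unramified elements form a ring.
-/

set_option autoImplicit false

namespace Pool.Agent.ZP3.H60

open Pool.Agent.ZP3 Pool.Agent.ZPT

section

variable {K : Type} [NormedField K] [CharZero K] [IsUltrametricDist K]

/-- The ring of integers of an ultrametric normed field. -/
def OO (K : Type) [NormedField K] [IsUltrametricDist K] : Subring K where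
  carrier := {x | ‖x‖ ≤ 1}
  mul_mem' := by
    intro a b ha hb
    simp only [Set.mem_setOf_eq] at *
    rw [norm_mul]
    exact mul_le_one₀ ha (norm_nonneg _) hb
  one_mem' := by simp
  add_mem' := by
    intro a b ha hb
    simp only [Set.mem_setOf_eq] at *
    exact (IsUltrametricDist.norm_add_le_max _ _).trans (max_le ha hb)
  zero_mem' := by simp
  neg_mem' := by
    intro a ha
    simp only [Set.mem_setOf_eq] at *
    rw [norm_neg]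
    exact ha

theorem sub_le' {a b : K} {c : ℝ} (ha : ‖a‖ ≤ c) (hb : ‖b‖ ≤ c) : ‖a - b‖ ≤ c := by
  rw [sub_eq_add_neg]
  refine (IsUltrametricDist.norm_add_le_max _ _).trans (max_le ha ?_)
  rw [norm_neg]
  exact hb

theorem add_le' {a b : K} {c : ℝ} (ha : ‖a‖ ≤ c) (hb : ‖b‖ ≤ c) : ‖a + b‖ ≤ c :=
  (IsUltrametricDist.norm_add_le_max _ _).trans (max_le ha hb)

theorem pow_congr' {a b : K} {c : ℝ} (ha : ‖a‖ ≤ 1) (hb : ‖b‖ ≤ 1) (h : ‖a - b‖ ≤ c) (n : ℕ) :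
    ‖a ^ n - b ^ n‖ ≤ c := by
  have hc : 0 ≤ c := (norm_nonneg _).trans h
  induction n with
  | zero => simpa using hc
  | succ n ih =>
    have e : a ^ (n + 1) - b ^ (n + 1) = a * (a ^ n - b ^ n) + (a - b) * b ^ n := by ring
    rw [e]
    refine add_le' ?_ ?_
    · rw [norm_mul]
      calc ‖a‖ * ‖a ^ n - b ^ n‖ ≤ 1 * c := mul_le_mul ha ih (norm_nonneg _) zero_le_one
        _ = c := one_mul c
    · rw [norm_mul, norm_pow]
      calc ‖a - b‖ * ‖b‖ ^ n ≤ c * 1 :=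
            mul_le_mul h (pow_le_one₀ (norm_nonneg _) hb) (by positivity) hc
        _ = c := mul_one c

theorem frob {p : ℕ} (hp : p.Prime) (hK : Ext p K) {a b : K} (ha : ‖a‖ ≤ 1) (hb : ‖b‖ ≤ 1)
    (n : ℕ) : ‖(a + b) ^ (p ^ n) - (a ^ (p ^ n) + b ^ (p ^ n))‖ ≤ (p : ℝ)⁻¹ := by
  obtain ⟨r, hr⟩ := exists_add_pow_prime_pow_eq (R := OO K) hp ⟨a, ha⟩ ⟨b, hb⟩ n
  have h := congrArg (Subring.subtype (OO K)) hr
  simp only [map_add, map_pow, map_mul, map_natCast, Subring.subtype_apply] at h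
  have hp1 : ‖(p : K)‖ = (p : ℝ)⁻¹ := by
    rw [ZPT.H49.p_norm hp hK, one_div]
  rw [h, add_sub_cancel_left, norm_mul, norm_mul, norm_mul, hp1]
  have h1 : ‖(r : K)‖ ≤ 1 := r.2
  have h0 : (0 : ℝ) ≤ (p : ℝ)⁻¹ := by positivity
  calc (p : ℝ)⁻¹ * ‖a‖ * ‖b‖ * ‖(r : K)‖ ≤ (p : ℝ)⁻¹ * 1 * 1 * 1 := by gcongr
    _ = (p : ℝ)⁻¹ := by ring

theorem iter' {p : ℕ} {a : K} (ha : ‖a‖ ≤ 1) {F : ℕ}
    (h : ‖a ^ (p ^ F) - a‖ ≤ (p : ℝ)⁻¹) (j : ℕ) : ‖a ^ (p ^ (F * j)) - a‖ ≤ (p : ℝ)⁻¹ := by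
  have h0 : (0 : ℝ) ≤ (p : ℝ)⁻¹ := by positivity
  induction j with
  | zero => simpa using h0
  | succ j ih =>
    have e : a ^ (p ^ (F * (j + 1))) - a =
        ((a ^ (p ^ (F * j))) ^ (p ^ F) - a ^ (p ^ F)) + (a ^ (p ^ F) - a) := by
      rw [← pow_mul, ← pow_add, mul_add, mul_one]
      ring
    rw [e]
    refine add_le' (pow_congr' ?_ ha ih _) h
    rw [norm_pow]
    exact pow_le_one₀ (norm_nonneg _) ha

theorem ur_add {p : ℕ} (hp : p.Prime) (hK : Ext p K) {a b : K} (ha : Ur p a) (hb : Ur p b) :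
    Ur p (a + b) := by
  obtain ⟨ha1, F, hF, ha2⟩ := ha
  obtain ⟨hb1, G, hG, hb2⟩ := hb
  refine ⟨add_le' ha1 hb1, F * G, Nat.mul_pos hF hG, ?_⟩
  have h1 := iter' ha1 ha2 G
  have h2 := iter' hb1 hb2 F
  rw [mul_comm G F] at h2
  have e : (a + b) ^ (p ^ (F * G)) - (a + b) =
      ((a + b) ^ (p ^ (F * G)) - (a ^ (p ^ (F * G)) + b ^ (p ^ (F * G)))) +
        ((a ^ (p ^ (F * G)) - a) + (b ^ (p ^ (F * G)) - b)) := by ring
  rw [e]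
  exact add_le' (frob hp hK ha1 hb1 _) (add_le' h1 h2)

theorem ur_mul {p : ℕ} {a b : K} (ha : Ur p a) (hb : Ur p b) : Ur p (a * b) := by
  obtain ⟨ha1, F, hF, ha2⟩ := ha
  obtain ⟨hb1, G, hG, hb2⟩ := hb
  have h0 : (0 : ℝ) ≤ (p : ℝ)⁻¹ := by positivity
  refine ⟨?_, F * G, Nat.mul_pos hF hG, ?_⟩
  · rw [norm_mul]
    exact mul_le_one₀ ha1 (norm_nonneg _) hb1
  have h1 := iter' ha1 ha2 G
  have h2 := iter' hb1 hb2 F
  rw [mul_comm G F] at h2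
  have e : (a * b) ^ (p ^ (F * G)) - (a * b) =
      a ^ (p ^ (F * G)) * (b ^ (p ^ (F * G)) - b) + (a ^ (p ^ (F * G)) - a) * b := by
    rw [mul_pow]
    ring
  rw [e]
  refine add_le' ?_ ?_
  · rw [norm_mul, norm_pow]
    calc ‖a‖ ^ (p ^ (F * G)) * ‖b ^ (p ^ (F * G)) - b‖ ≤ 1 * (p : ℝ)⁻¹ :=
          mul_le_mul (pow_le_one₀ (norm_nonneg _) ha1) h2 (norm_nonneg _) zero_le_one
      _ = (p : ℝ)⁻¹ := one_mul _
  · rw [norm_mul]
    calc ‖a ^ (p ^ (F * G)) - a‖ * ‖b‖ ≤ (p : ℝ)⁻¹ * 1 :=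
          mul_le_mul h1 hb1 (norm_nonneg _) h0
      _ = (p : ℝ)⁻¹ := mul_one _

theorem ur_rat {p : ℕ} (hp : p.Prime) (hK : Ext p K) (r : ℚ) (hr : padicNorm p r ≤ 1) :
    Ur p (r : K) := by
  haveI := Fact.mk hp
  refine ⟨?_, 1, le_refl 1, ?_⟩
  · rw [hK]
    exact_mod_cast hr
  · have e : (r : K) ^ (p ^ 1) - (r : K) = ((r ^ p - r : ℚ) : K) := by
      push_cast
      rw [pow_one]
    rw [e, hK, ← Padic.eq_padicNorm]
    have hx : ‖((r : ℚ) : ℚ_[p])‖ ≤ 1 := by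
      rw [Padic.eq_padicNorm]
      exact_mod_cast hr
    set x : ℤ_[p] := ⟨(r : ℚ_[p]), hx⟩ with hxdef
    have h1 : PadicInt.toZMod (x ^ p - x) = 0 := by
      rw [map_sub, map_pow, ZMod.pow_card, sub_self]
    have h2 : x ^ p - x ∈ RingHom.ker (PadicInt.toZMod : ℤ_[p] →+* ZMod p) := h1
    rw [PadicInt.ker_toZMod, PadicInt.maximalIdeal_eq_span_p, Ideal.mem_span_singleton] at h2
    obtain ⟨c, hc⟩ := h2
    have h3 : ((r ^ p - r : ℚ) : ℚ_[p]) = ((x ^ p - x : ℤ_[p]) : ℚ_[p]) := by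
      push_cast
      rfl
    rw [h3, hc]
    have h4 : ‖(((p : ℤ_[p]) * c : ℤ_[p]) : ℚ_[p])‖ = ‖(p : ℤ_[p]) * c‖ := rfl
    rw [h4, norm_mul, PadicInt.norm_p]
    calc (p : ℝ)⁻¹ * ‖c‖ ≤ (p : ℝ)⁻¹ * 1 :=
          mul_le_mul_of_nonneg_left (PadicInt.norm_le_one c) (by positivity)
      _ = (p : ℝ)⁻¹ := mul_one _

theorem ur_int {p : ℕ} (hp : p.Prime) (hK : Ext p K) (m : ℤ) : Ur p (m : K) := by
  haveI := Fact.mk hp
  have h := ur_rat hp hK (m : ℚ) (padicNorm.of_int m)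
  rwa [Rat.cast_intCast] at h

theorem ur_neg {p : ℕ} (hp : p.Prime) (hK : Ext p K) {a : K} (ha : Ur p a) : Ur p (-a) := by
  have h := ur_mul (ur_int hp hK (-1)) ha
  have e : ((-1 : ℤ) : K) * a = -a := by
    push_cast
    ring
  rwa [e] at h

theorem ur_sub {p : ℕ} (hp : p.Prime) (hK : Ext p K) {a b : K} (ha : Ur p a) (hb : Ur p b) :
    Ur p (a - b) := by
  rw [sub_eq_add_neg]
  exact ur_add hp hK ha (ur_neg hp hK hb)

theorem ur_small {p : ℕ} (hp : p.Prime) {a : K} (ha : Ur p a) (h1 : ‖a‖ < 1) :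
    ‖a‖ ≤ (p : ℝ)⁻¹ := by
  obtain ⟨ha1, F, hF, ha2⟩ := ha
  by_contra hc
  push Not at hc
  have hp0 : (0 : ℝ) ≤ (p : ℝ)⁻¹ := by positivity
  have hpos : 0 < ‖a‖ := lt_of_le_of_lt hp0 hc
  have h2 : 1 < p ^ F := Nat.one_lt_pow (by omega) hp.one_lt
  have h3 : ‖a‖ ^ (p ^ F) < ‖a‖ := by
    calc ‖a‖ ^ (p ^ F) < ‖a‖ ^ 1 := pow_lt_pow_right_of_lt_one₀ hpos h1 h2
      _ = ‖a‖ := pow_one _
  have e : a = a ^ (p ^ F) - (a ^ (p ^ F) - a) := by ring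
  have h4 : ‖a ^ (p ^ F) - (a ^ (p ^ F) - a)‖ ≤ max (‖a‖ ^ (p ^ F)) ((p : ℝ)⁻¹) := by
    refine sub_le' ?_ (ha2.trans (le_max_right _ _))
    rw [norm_pow]
    exact le_max_left _ _
  rw [← e] at h4
  exact absurd h4 (not_le.mpr (max_lt h3 hc))

theorem uu_inv {p : ℕ} {a : K} (ha : Uu p a) : Uu p a⁻¹ := by
  obtain ⟨⟨ha1, F, hF, ha2⟩, h1⟩ := ha
  have ha0 : a ≠ 0 := by
    intro h
    rw [h, norm_zero] at h1
    exact zero_ne_one h1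
  have hn : ‖a⁻¹‖ = 1 := by rw [norm_inv, h1, inv_one]
  refine ⟨⟨hn.le, F, hF, ?_⟩, hn⟩
  have e : a⁻¹ ^ (p ^ F) - a⁻¹ = (a - a ^ (p ^ F)) * (a⁻¹ ^ (p ^ F) * a⁻¹) := by
    rw [inv_pow]
    have h2 : a ^ (p ^ F) ≠ 0 := pow_ne_zero _ ha0
    field_simp
  rw [e, norm_mul, norm_mul, norm_pow, hn, one_pow, one_mul, mul_one, norm_sub_rev]
  exact ha2

end

/-- Row URR. -/
theorem urr : URRStmt := by
  intro p hp K _ _ _ hK
  exact ⟨fun a b ha hb => ⟨ur_add hp hK ha hb, ur_mul ha hb, ur_neg hp hK ha, ur_sub hp hK ha hb⟩,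
    ur_rat hp hK, ur_int hp hK, fun a ha h1 => ur_small hp ha h1, fun a ha => uu_inv ha⟩

end Pool.Agent.ZP3.H60
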