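import Pool.Agent.Helper60_ZP3.URR

/-!
Squad ZP3 (MP_6e1a06_nt), row WLM: no unramified unit times a root of unity comes closer.
-/

set_option autoImplicit false

namespace Pool.Agent.ZP3.H60

open Pool.Agent.ZP3 Pool.Agent.ZPT

section

variable {K : Type} [NormedField K] [CharZero K] [IsUltrametricDist K]

theorem ro_norm {x : K} (hx : Ro x) : ‖x‖ = 1 := by
  obtain ⟨M, hM, h⟩ := hx
  have h1 : ‖x‖ ^ M = 1 := by rw [← norm_pow, h, norm_one]
  exact (pow_eq_one_iff_of_nonneg (norm_nonneg _) (by omega)).mp h1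

theorem ro_div {x y : K} (hx : Ro x) (hy : Ro y) : Ro (x / y) := by
  obtain ⟨M, hM, h⟩ := hx
  obtain ⟨N, hN, h'⟩ := hy
  refine ⟨M * N, Nat.mul_pos hM hN, ?_⟩
  rw [div_pow, pow_mul, h, one_pow, mul_comm M N, pow_mul, h', one_pow, div_one]

theorem ro_pow {x : K} (hx : Ro x) (m : ℕ) : Ro (x ^ m) := by
  obtain ⟨M, hM, h⟩ := hx
  refine ⟨M, hM, ?_⟩
  rw [← pow_mul, mul_comm, pow_mul, h, one_pow]

/-- `p ^ F - 1` has norm 1 -/
theorem norm_pF {p : ℕ} (hp : p.Prime) (hK : Ext p K) {F : ℕ} (hF : 1 ≤ F) :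
    ‖((p ^ F - 1 : ℕ) : K)‖ = 1 := by
  refine le_antisymm (ZPT.H49.nat_le hp hK _) ?_
  have h1 : 1 ≤ p ^ F := Nat.one_le_pow _ _ hp.pos
  have e : (1 : K) = (p : K) ^ F - ((p ^ F - 1 : ℕ) : K) := by
    rw [Nat.cast_sub h1]
    push_cast
    ring
  have h2 : ‖(p : K)‖ < 1 := by
    rw [ZPT.H49.p_norm hp hK, div_lt_one (by exact_mod_cast hp.pos)]
    exact_mod_cast hp.one_lt
  have h3 : ‖(p : K) ^ F‖ < 1 := by
    rw [norm_pow]
    exact pow_lt_one₀ (norm_nonneg _) h2 (by omega)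
  by_contra hc
  push Not at hc
  have h4 : ‖(1 : K)‖ < 1 := by
    rw [e]
    have h5 : ‖(p : K) ^ F - ((p ^ F - 1 : ℕ) : K)‖ ≤
        max ‖(p : K) ^ F‖ ‖((p ^ F - 1 : ℕ) : K)‖ :=
      sub_le' (le_max_left _ _) (le_max_right _ _)
    exact h5.trans_lt (max_lt h3 hc)
  rw [norm_one] at h4
  exact lt_irrefl _ h4

/-- powers of exponent prime to `p` do not change the distance to 1 -/
theorem pow_sub_eq {u : K} {m : ℕ} (hm : ‖(m : K)‖ = 1) (hu : ‖u - 1‖ < 1) (h0 : 0 < ‖u - 1‖) :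
    ‖u ^ m - 1‖ = ‖u - 1‖ := by
  refine le_antisymm (ZPT.H49.pow_sub_one_le hu.le m) ?_
  by_contra hc
  push Not at hc
  have h1 := ZPT.H49.pow_sub_lin hu.le m
  have h2 : ‖(m : K) * (u - 1)‖ = ‖u - 1‖ := by rw [norm_mul, hm, one_mul]
  have e : (m : K) * (u - 1) = (u ^ m - 1) - (u ^ m - 1 - (m : K) * (u - 1)) := by ring
  have h3 : ‖u - 1‖ ^ 2 < ‖u - 1‖ := by nlinarith
  have h4 : ‖(u ^ m - 1) - (u ^ m - 1 - (m : K) * (u - 1))‖ ≤
      max ‖u ^ m - 1‖ (‖u - 1‖ ^ 2) :=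
    sub_le' (le_max_left _ _) (h1.trans (le_max_right _ _))
  rw [← e, h2] at h4
  exact absurd h4 (not_le.mpr (max_lt hc h3))

/-- norm of `u` when `‖u - 1‖ < 1` -/
theorem norm_near {u : K} (hu : ‖u - 1‖ < 1) : ‖u‖ = 1 := by
  have e : u = (u - 1) + 1 := by ring
  refine le_antisymm ?_ ?_
  · rw [e]
    exact add_le' hu.le (by rw [norm_one])
  · by_contra hc
    push Not at hc
    have e2 : (1 : K) = u - (u - 1) := by ring
    have h4 : ‖u - (u - 1)‖ ≤ max ‖u‖ ‖u - 1‖ := sub_le' (le_max_left _ _) (le_max_right _ _)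
    rw [← e2, norm_one] at h4
    exact absurd h4 (not_le.mpr (max_lt hc hu))

end

/-- Row WLM. -/
theorem wlm (hZ : ZKLStmt) (hR : ROUStmt) (hT : THBStmt) : WLMStmt := by
  intro p hp hp5 K _ _ _ hK k w B x hk hw hB hx
  obtain ⟨_, ht0, ht1, ht3, _⟩ := hT p hp hp5
  by_contra hc
  push Not at hc
  obtain ⟨x₀, hx₀, hh⟩ := hZ p hp hp5 K hK k w hk hw
  set z := (w - 1) ^ (p ^ (k - 1) * (p - 1)) / (p : K) with hz
  obtain ⟨⟨hB1, F, hF, hB2⟩, hBn⟩ := hB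
  have hp0 : (0 : ℝ) ≤ (p : ℝ)⁻¹ := by positivity
  have ht2 : th p ^ 2 < 1 := by
    calc th p ^ 2 < 1 ^ 2 := pow_lt_pow_left₀ ht1 ht0.le (by norm_num)
      _ = 1 := one_pow 2
  have ht2' : th p ^ 2 < th p := by nlinarith
  have hp2 : (p : ℝ)⁻¹ < th p ^ 2 := by
    refine ht3.trans ?_
    have : th p ^ 3 = th p ^ 2 * th p := by ring
    rw [this]
    have : 0 < th p ^ 2 := by positivity
    nlinarith
  have htp : 0 < th p ^ 2 := by positivity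
  set m : ℕ := p ^ F - 1 with hm
  have hmn : ‖(m : K)‖ = 1 := norm_pF hp hK hF
  have hB0 : B ≠ 0 := by
    intro h
    rw [h, norm_zero] at hBn
    exact zero_ne_one hBn
  -- `B ^ m` is close to one
  have hBm : ‖B ^ m - 1‖ ≤ (p : ℝ)⁻¹ := by
    have e : B ^ (p ^ F) - B = (B ^ m - 1) * B := by
      have h1 : p ^ F = m + 1 := by
        have : 1 ≤ p ^ F := Nat.one_le_pow _ _ hp.pos
        omega
      rw [h1, pow_succ]
      ring
    rw [e, norm_mul, hBn, mul_one] at hB2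
    exact hB2
  have hxn := ro_norm hx
  have hx₀n := ro_norm hx₀
  have hzx : ‖z * x₀ - 1‖ < 1 := by rw [hh]; exact ht2
  have hzn : ‖z‖ = 1 := by
    have h1 := norm_near hzx
    rwa [norm_mul, hx₀n, mul_one] at h1
  -- `a = (z x)^m`
  have hd1 : ‖(z * B * x) ^ m - 1‖ < th p ^ 2 :=
    (ZPT.H49.pow_sub_one_le (hc.le.trans ht2.le) m).trans_lt hc
  have hd2 : ‖(z * x) ^ m - 1‖ < th p ^ 2 := by
    have e : (z * x) ^ m - 1 = ((z * B * x) ^ m - 1) - (z * x) ^ m * (B ^ m - 1) := by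
      rw [mul_pow, mul_pow, mul_pow]
      ring
    rw [e]
    have h1 : ‖(z * x) ^ m * (B ^ m - 1)‖ ≤ (p : ℝ)⁻¹ := by
      rw [norm_mul, norm_pow, norm_mul, hzn, hxn, one_mul, one_pow, one_mul]
      exact hBm
    have h2 : ‖((z * B * x) ^ m - 1) - (z * x) ^ m * (B ^ m - 1)‖ ≤
        max ‖(z * B * x) ^ m - 1‖ ((p : ℝ)⁻¹) := sub_le' (le_max_left _ _) (h1.trans (le_max_right _ _))
    exact h2.trans_lt (max_lt hd1 hp2)
  have hd3 : ‖(z * x₀) ^ m - 1‖ = th p ^ 2 := by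
    rw [pow_sub_eq hmn hzx (by rw [hh]; exact htp), hh]
  -- the root of unity
  have hx₀0 : x₀ ≠ 0 := by
    intro h
    rw [h, norm_zero] at hx₀n
    exact zero_ne_one hx₀n
  set ζ : K := x ^ m / x₀ ^ m with hζ
  have hζr : Ro ζ := ro_div (ro_pow hx m) (ro_pow hx₀ m)
  have hζn : ‖ζ‖ = 1 := ro_norm hζr
  have hrel : ζ * (z * x₀) ^ m = (z * x) ^ m := by
    rw [hζ, mul_pow, mul_pow]
    have h1 : x₀ ^ m ≠ 0 := pow_ne_zero _ hx₀0
    field_simp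
  have hζ1 : ‖ζ - 1‖ ≤ th p ^ 2 := by
    have e : ζ - 1 = ((z * x) ^ m - 1) - ζ * ((z * x₀) ^ m - 1) := by
      rw [mul_sub, hrel]
      ring
    rw [e]
    refine sub_le' hd2.le ?_
    rw [norm_mul, hζn, one_mul, hd3]
  have hζeq : ζ = 1 := by
    by_contra hne
    have h1 := hR p hp (by omega) K hK ζ hζr hne
    exact absurd (h1.trans hζ1) (not_le.mpr ht2')
  rw [hζeq, one_mul] at hrel
  rw [hrel] at hd3
  exact absurd hd3 hd2.ne

end Pool.Agent.ZP3.H60
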